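import Pool.Agent.T9h7.RE.Spec3

/-!
# RE Spec3, piece (CORA)
-/

set_option autoImplicit false
open Filter

namespace Pool.Agent.T9h69.RE

open Pool.Agent.T9h7.RD Pool.Agent.T9h7.RE

theorem log_two_mul' {n : ℕ} (hn2 : 2 ≤ n) :
    Real.log ((n : ℝ) + 2) ≤ 2 * Real.log n := by
  have h2 : (2 : ℝ) ≤ (n : ℝ) := by exact_mod_cast hn2
  have : (2 : ℝ) * Real.log n = Real.log ((n : ℝ) ^ 2) := by
    rw [Real.log_pow]; norm_num
  rw [this]
  apply Real.log_le_log (by linarith)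
  nlinarith

theorem exists_large' (K : ℕ) : ∃ n0 : ℕ, ∀ n ≥ n0, 16 * (K : ℝ) ≤ Real.log n ∧ 2 ≤ n := by
  refine ⟨⌈Real.exp (16 * (K : ℝ))⌉₊ + 2, ?_⟩
  intro n hn
  refine ⟨?_, by omega⟩
  have h1 : Real.exp (16 * (K : ℝ)) ≤ (n : ℝ) := by
    refine (Nat.le_ceil _).trans ?_
    exact_mod_cast (by omega : ⌈Real.exp (16 * (K : ℝ))⌉₊ ≤ n)
  have h2 : (0 : ℝ) < (n : ℝ) := lt_of_lt_of_le (Real.exp_pos _) h1
  exact (Real.le_log_iff_exp_le h2).mpr h1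

/-- the analytic part -/
theorem final_ineq {K n D S w Λ c : ℕ} (hS : 0 < S) (hn1 : 16 * ((K : ℝ) + 1) ≤ Real.log n)
    (hn2 : 2 ≤ n) (hSD : (S : ℝ) ≤ Real.sqrt D * (Real.log n) ^ c)
    (hw : (w : ℝ) ≤ (S : ℝ) / (Real.log n) ^ (2 * c + 4))
    (hΛ : Real.log ((Λ : ℝ) + 2) ≤ 2 * ((S : ℝ) / (Real.log n) ^ (2 * c + 1)))
    (hmain : (D : ℝ) ≤ (K : ℝ) * (S : ℝ) *
      ((w : ℝ) * (Real.log ((n : ℝ) + 2)) ^ 3 + Real.log ((Λ : ℝ) + 2))) : False := by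
  have hK : (0 : ℝ) ≤ (K : ℝ) := Nat.cast_nonneg K
  have hS0 : (0 : ℝ) < (S : ℝ) := by exact_mod_cast hS
  have hL9 := log_two_mul' hn2
  have hnn : (2 : ℝ) ≤ (n : ℝ) := by exact_mod_cast hn2
  have hl0 : 0 ≤ Real.log ((n : ℝ) + 2) := Real.log_nonneg (by linarith)
  obtain ⟨L, hLd⟩ : ∃ L, L = Real.log (n : ℝ) := ⟨_, rfl⟩
  rw [← hLd] at hn1 hSD hw hΛ hL9
  have hL : 1 ≤ L := by linarith
  have hL0 : 0 < L := by linarith
  obtain ⟨x, hx⟩ : ∃ x, x = (S : ℝ) / L ^ (2 * c + 1) := ⟨_, rfl⟩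
  rw [← hx] at hΛ
  have hx0 : 0 < x := by rw [hx]; positivity
  have h1 : (w : ℝ) * (Real.log ((n : ℝ) + 2)) ^ 3 ≤ 8 * x := by
    calc (w : ℝ) * (Real.log ((n : ℝ) + 2)) ^ 3
        ≤ ((S : ℝ) / L ^ (2 * c + 4)) * (2 * L) ^ 3 := by gcongr
      _ = 8 * x := by
        rw [hx, show 2 * c + 4 = (2 * c + 1) + 3 by ring, pow_add]
        field_simp
        ring
  have h2 : (D : ℝ) ≤ 10 * (K : ℝ) * ((S : ℝ) * x) := by
    calc (D : ℝ) ≤ (K : ℝ) * (S : ℝ) *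
          ((w : ℝ) * (Real.log ((n : ℝ) + 2)) ^ 3 + Real.log ((Λ : ℝ) + 2)) := hmain
      _ ≤ (K : ℝ) * (S : ℝ) * (8 * x + 2 * x) := by gcongr
      _ = 10 * (K : ℝ) * ((S : ℝ) * x) := by ring
  have h3 : (S : ℝ) ^ 2 ≤ (D : ℝ) * L ^ (2 * c) := by
    have h5 := pow_le_pow_left₀ hS0.le hSD 2
    refine h5.trans (le_of_eq ?_)
    have h6 : (Real.sqrt (D : ℝ)) ^ 2 = (D : ℝ) := Real.sq_sqrt (Nat.cast_nonneg D)
    calc (Real.sqrt (D : ℝ) * L ^ c) ^ 2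
        = (Real.sqrt (D : ℝ)) ^ 2 * (L ^ c) ^ 2 := by ring
      _ = (D : ℝ) * L ^ (2 * c) := by
          rw [h6, ← pow_mul, mul_comm c 2]
  have h4 : (S : ℝ) * x * L ≤ (D : ℝ) := by
    have h5 : (S : ℝ) * x * L = (S : ℝ) ^ 2 / L ^ (2 * c) := by
      rw [hx, pow_succ]
      field_simp
    rw [h5, div_le_iff₀ (by positivity)]
    exact h3
  have h5 : 0 < (S : ℝ) * x := by positivity
  have h6 : (S : ℝ) * x * L ≤ (S : ℝ) * x * (10 * (K : ℝ)) := by linarith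
  have h7 := le_of_mul_le_mul_left h6 h5
  linarith

/-- piece (CORA) -/
theorem sCorA : SCorA := by
  rintro ⟨K, hK⟩ c
  obtain ⟨n0, hn0⟩ := exists_large' (K + 1)
  refine ⟨n0, ?_⟩
  intro n hn F D τ M hD hM hsp
  obtain ⟨hn1, hn2⟩ := hn0 n hn
  push_cast at hn1
  have hK0 : (0 : ℝ) ≤ (K : ℝ) := Nat.cast_nonneg K
  have hL : 1 ≤ Real.log (n : ℝ) := by linarith
  have hL0 : 0 < Real.log (n : ℝ) := by linarith
  -- the maximal total size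
  obtain ⟨u0, hu0, hmax⟩ := Finset.exists_max_image (Finset.range (τ + 1))
    (fun u => ∑ C ∈ M u, C.card) ⟨0, by simp⟩
  rw [Finset.mem_range] at hu0
  have hs : ∀ t ≤ τ, ∑ C ∈ M t, C.card ≤ ∑ C ∈ M u0, C.card := fun t ht =>
    hmax t (Finset.mem_range.mpr (by omega))
  have hSD := hsp u0 (by omega)
  obtain ⟨S, hS⟩ : ∃ S, S = ∑ C ∈ M u0, C.card := ⟨_, rfl⟩
  rw [← hS] at hs hSD
  refine ⟨S, hs, ⟨u0, by omega, hS.symm⟩, ?_⟩
  by_cases hsmall : Real.exp ((S : ℝ) / (Real.log n) ^ (2 * c + 1)) ≤ 2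
  · -- small total size
    rcases Nat.eq_zero_or_pos S with h0 | hpos
    · refine ⟨τ, 0, by omega, by simpa using hsmall, ?_⟩
      intro u hu1 hu2
      obtain rfl : u = τ := by omega
      refine ⟨∅, hM.2.1, ?_⟩
      simp [h0]
    · refine ⟨u0, 0, by omega, by simpa using hsmall, ?_⟩
      intro u hu1 hu2
      obtain rfl : u = u0 := by omega
      obtain ⟨C, hC, hCpos⟩ : ∃ C ∈ M u, 0 < C.card := by
        by_contra hcon
        push Not at hcon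
        have : ∑ C ∈ M u, C.card = 0 := Finset.sum_eq_zero fun C hC => Nat.le_zero.1 (hcon C hC)
        omega
      refine ⟨C, hC, ?_⟩
      have hC1 : (1 : ℝ) ≤ (C.card : ℝ) := by exact_mod_cast hCpos
      have h1 : (S : ℝ) / (Real.log n) ^ (2 * c + 1) ≤ 1 := by
        have h2 : (S : ℝ) / (Real.log n) ^ (2 * c + 1) + 1 ≤ 2 :=
          (Real.add_one_le_exp _).trans hsmall
        linarith
      rw [div_le_one (by positivity)] at h1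
      calc (S : ℝ) ≤ (Real.log n) ^ (2 * c + 1) := h1
        _ ≤ (Real.log n) ^ (2 * c + 4) := pow_le_pow_right₀ hL (by omega)
        _ = 1 * (Real.log n) ^ (2 * c + 4) := (one_mul _).symm
        _ ≤ (C.card : ℝ) * (Real.log n) ^ (2 * c + 4) := by gcongr
  · push Not at hsmall
    have hSpos : 0 < S := by
      rcases Nat.eq_zero_or_pos S with h0 | hpos
      · rw [h0] at hsmall
        simp at hsmall
      · exact hpos
    have hceil : 3 ≤ ⌈Real.exp ((S : ℝ) / (Real.log n) ^ (2 * c + 1))⌉₊ := by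
      have : 2 < ⌈Real.exp ((S : ℝ) / (Real.log n) ^ (2 * c + 1))⌉₊ := by
        rw [Nat.lt_ceil]
        exact_mod_cast hsmall
      omega
    obtain ⟨Λ, hΛ⟩ : ∃ Λ, Λ + 2 = ⌈Real.exp ((S : ℝ) / (Real.log n) ^ (2 * c + 1))⌉₊ :=
      ⟨_, Nat.sub_add_cancel (by omega)⟩
    have hΛr : (Λ : ℝ) + 2 = (⌈Real.exp ((S : ℝ) / (Real.log n) ^ (2 * c + 1))⌉₊ : ℝ) := by
      exact_mod_cast hΛ
    by_contra hcon
    push Not at hcon
    have hwin : ∀ t, t + Λ ≤ τ → ∃ u, t ≤ u ∧ u ≤ t + Λ ∧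
        ∀ C ∈ M u, C.card ≤ ⌊(S : ℝ) / (Real.log n) ^ (2 * c + 4)⌋₊ := by
      intro t ht
      obtain ⟨u, hu1, hu2, hu3⟩ := hcon t Λ ht (by rw [hΛr]; exact Nat.le_ceil _)
      refine ⟨u, hu1, hu2, fun C hC => Nat.le_floor ?_⟩
      rw [le_div_iff₀ (by positivity)]
      exact (hu3 C hC).le
    have hb := hK n F D S _ Λ τ M hD hM hs hwin
    refine final_ineq (n := n) (Λ := Λ) (c := c) hSpos hn1 hn2 hSD (Nat.floor_le (by positivity)) ?_ hb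
    have h1 : (Λ : ℝ) + 2 ≤ Real.exp ((S : ℝ) / (Real.log n) ^ (2 * c + 1)) + 1 := by
      rw [hΛr]
      exact (Nat.ceil_lt_add_one (Real.exp_pos _).le).le
    have h2 : (Λ : ℝ) + 2 ≤ Real.exp (2 * ((S : ℝ) / (Real.log n) ^ (2 * c + 1))) := by
      rw [two_mul, Real.exp_add]
      nlinarith
    have h3 : (0 : ℝ) < (Λ : ℝ) + 2 := by positivity
    exact (Real.log_le_iff_le_exp h3).2 h2

end Pool.Agent.T9h69.RE
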