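import Pool.Agent.T9h7.RE.Pot

set_option autoImplicit false

/-!
# Project RE, piece NUM2: the numbers of the multi-scale version
-/

namespace Pool.Agent.T9h69.RE

theorem sNum : Pool.Agent.T9h7.RE.SNum := by
  refine ⟨41210, fun n s w T hw hws hsn hT => ?_⟩
  obtain ⟨J, hJ⟩ : ∃ J, J = Nat.log 2 (s / w) := ⟨_, rfl⟩
  have hsw : s / w ≠ 0 := (Nat.div_pos hws hw).ne'
  have h1 : 2 ^ J ≤ s / w := hJ ▸ Nat.pow_log_le_self 2 hsw
  have h2 : s / w < 2 ^ (J + 1) := hJ ▸ Nat.lt_pow_succ_log_self Nat.one_lt_two _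
  have h3 : 2 ^ J * w ≤ s := (Nat.le_div_iff_mul_le hw).1 h1
  have h4 : s < 2 ^ (J + 1) * w := (Nat.div_lt_iff_lt_mul hw).1 h2
  have hP : 0 < 2 ^ J := by positivity
  obtain ⟨η, hη⟩ : ∃ η, η = 2 * s / 2 ^ J + 1 := ⟨_, rfl⟩
  have hη1 : 2 * s ≤ η * 2 ^ J := by
    have h5 := Nat.lt_mul_div_succ (2 * s) hP
    rw [hη]
    exact h5.le.trans (le_of_eq (mul_comm _ _))
  have hη3 : 1 ≤ η := by
    rw [hη]
    exact Nat.le_add_left 1 _
  have hη2 : η ≤ 4 * w := by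
    have h5 : 2 * s / 2 ^ J < 4 * w := by
      rw [Nat.div_lt_iff_lt_mul hP]
      rw [pow_succ] at h4
      nlinarith
    omega
  have hn1 : 1 ≤ n := by omega
  have hs1 : 1 ≤ s := by omega
  have hnR : (1 : ℝ) ≤ n := by exact_mod_cast hn1
  have hsR : (1 : ℝ) ≤ s := by exact_mod_cast hs1
  have hwR : (1 : ℝ) ≤ w := by exact_mod_cast hw
  have hsnR : (s : ℝ) ≤ n := by exact_mod_cast hsn
  obtain ⟨ℓ, hℓ⟩ : ∃ ℓ : ℝ, ℓ = Real.log ((n : ℝ) + 2) := ⟨_, rfl⟩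
  have hℓ1 : 1 ≤ ℓ := by
    rw [hℓ, Real.le_log_iff_exp_le (by linarith)]
    have := Real.exp_one_lt_d9
    linarith
  have hL : Real.log (2 * (n : ℝ) + 2) ≤ 2 * ℓ := by
    have h5 : Real.log (2 * (n : ℝ) + 2) ≤ Real.log (((n : ℝ) + 2) ^ 2) :=
      Real.log_le_log (by linarith) (by nlinarith)
    rw [Real.log_pow] at h5
    rw [hℓ]
    exact_mod_cast h5
  have hL0 : 0 ≤ Real.log (2 * (n : ℝ) + 2) := Real.log_nonneg (by linarith)
  have hL3 : Real.log (2 * (n : ℝ) * s + 1) ≤ 3 * ℓ := by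
    have h5 : Real.log (2 * (n : ℝ) * s + 1) ≤ Real.log (((n : ℝ) + 2) ^ 3) := by
      refine Real.log_le_log (by positivity) ?_
      have h6 : (n : ℝ) * s ≤ n * n := mul_le_mul_of_nonneg_left hsnR (by linarith)
      nlinarith [sq_nonneg (n : ℝ), mul_nonneg (sq_nonneg (n : ℝ)) (by linarith : (0 : ℝ) ≤ n)]
    rw [Real.log_pow] at h5
    rw [hℓ]
    exact_mod_cast h5
  have hl2 : (1 : ℝ) / 2 ≤ Real.log 2 := by
    have := Real.log_two_gt_d9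
    linarith
  have hl0 : 0 < Real.log 2 := by linarith
  have hPR : (0 : ℝ) < (2 : ℝ) ^ J := by positivity
  have hPR1 : (1 : ℝ) ≤ (2 : ℝ) ^ J := one_le_pow₀ (by norm_num)
  have h3R : (2 : ℝ) ^ J * w ≤ s := by exact_mod_cast h3
  have h4R : (s : ℝ) ≤ 2 * 2 ^ J * w := by
    have h5 : (s : ℝ) ≤ (2 : ℝ) ^ (J + 1) * w := by exact_mod_cast h4.le
    rw [pow_succ] at h5
    linarith
  have hηR1 : 2 * (s : ℝ) ≤ η * 2 ^ J := by exact_mod_cast hη1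
  have hηR2 : (η : ℝ) ≤ 4 * w := by exact_mod_cast hη2
  have hJℓ : (J : ℝ) ≤ 2 * ℓ := by
    have h5 : (2 : ℝ) ^ J ≤ (n : ℝ) + 2 := by
      have h6 : (2 : ℝ) ^ J * 1 ≤ 2 ^ J * w := mul_le_mul_of_nonneg_left hwR hPR.le
      linarith
    have h6 := Real.log_le_log hPR h5
    rw [Real.log_pow, ← hℓ] at h6
    nlinarith [Nat.cast_nonneg (α := ℝ) J]
  obtain ⟨A, hA⟩ : ∃ A : ℝ, A = (w : ℝ) * Real.log (2 * (n : ℝ) + 2) + 2 := ⟨_, rfl⟩
  have hA0 : 0 ≤ A := by rw [hA]; positivity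
  have hA1 : A ≤ 4 * (w : ℝ) * ℓ := by
    rw [hA]
    have h5 : (w : ℝ) * Real.log (2 * (n : ℝ) + 2) ≤ w * (2 * ℓ) :=
      mul_le_mul_of_nonneg_left hL (by linarith)
    have h6 : (1 : ℝ) ≤ w * ℓ := one_le_mul_of_one_le_of_one_le hwR hℓ1
    nlinarith
  obtain ⟨Y, hY⟩ : ∃ Y : ℝ, Y = 3 * 2 ^ J * A + s * Real.log (2 * (n : ℝ) * s + 1) / Real.log 2 :=
    ⟨_, rfl⟩
  have hY0 : 0 ≤ Y := by
    rw [hY]
    have h5 : 0 ≤ Real.log (2 * (n : ℝ) * s + 1) := Real.log_nonneg (by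
      have : 0 ≤ 2 * (n : ℝ) * s := by positivity
      linarith)
    positivity
  refine ⟨J, η, ⌊Y⌋₊, hη3, hη1, ?_, ?_⟩
  · intro a i b ha hi hb
    apply Nat.le_floor
    push_cast
    rw [← hA] at hi hb
    have hi' : (i : ℝ) ≤ 2 ^ J * A := by
      have h5 : 2 * (s : ℝ) * i ≤ (η * 2 ^ J) * i :=
        mul_le_mul_of_nonneg_right hηR1 (Nat.cast_nonneg _)
      have h6 : (η : ℝ) * i * 2 ^ J ≤ 2 * s * A * 2 ^ J := mul_le_mul_of_nonneg_right hi hPR.le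
      have h7 : 2 * (s : ℝ) * i ≤ 2 * s * (2 ^ J * A) := by linarith
      exact le_of_mul_le_mul_left h7 (by linarith)
    have hb' : (b : ℝ) ≤ i + 2 ^ J * A := by
      have h5 : (b : ℝ) = 2 ^ J * (1 / (2 : ℝ) ^ J * b) := by
        field_simp
      have h6 : (2 : ℝ) ^ J * (1 / (2 : ℝ) ^ J * b) ≤ 2 ^ J * (1 / (2 : ℝ) ^ J * i + A) :=
        mul_le_mul_of_nonneg_left hb hPR.le
      have h7 : (2 : ℝ) ^ J * (1 / (2 : ℝ) ^ J * i + A) = i + 2 ^ J * A := by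
        field_simp
      linarith
    have ha' : (a : ℝ) ≤ s * Real.log (2 * (n : ℝ) * s + 1) / Real.log 2 := by
      rw [le_div_iff₀ hl0]
      have h5 : (2 : ℝ) ^ a ≤ (2 * (n : ℝ) * s + 1) ^ s := by exact_mod_cast ha.trans hT
      have h6 := Real.log_le_log (by positivity) h5
      rw [Real.log_pow, Real.log_pow] at h6
      exact h6
    rw [hY]
    linarith
  · have hX : ((⌊Y⌋₊ / 2 ^ J + 2 : ℕ) : ℝ) ≤ 26 * w * ℓ := by
      push_cast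
      have h5 : ((⌊Y⌋₊ / 2 ^ J : ℕ) : ℝ) ≤ Y / 2 ^ J := by
        refine Nat.cast_div_le.trans ?_
        push_cast
        exact div_le_div_of_nonneg_right (Nat.floor_le hY0) hPR.le
      have h6 : Y / 2 ^ J ≤ 24 * w * ℓ := by
        rw [div_le_iff₀ hPR, hY]
        have h7 : (s : ℝ) * Real.log (2 * (n : ℝ) * s + 1) / Real.log 2 ≤ s * (6 * ℓ) := by
          rw [div_le_iff₀ hl0]
          have h8 : (s : ℝ) * Real.log (2 * (n : ℝ) * s + 1) ≤ s * (3 * ℓ) :=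
            mul_le_mul_of_nonneg_left hL3 (by linarith)
          have h9 : (s : ℝ) * (6 * ℓ) * (1 / 2) ≤ s * (6 * ℓ) * Real.log 2 :=
            mul_le_mul_of_nonneg_left hl2 (by positivity)
          linarith
        have h8 : (s : ℝ) * (6 * ℓ) ≤ 2 * 2 ^ J * w * (6 * ℓ) :=
          mul_le_mul_of_nonneg_right h4R (by positivity)
        have h9 : 3 * (2 : ℝ) ^ J * A ≤ 3 * 2 ^ J * (4 * w * ℓ) :=
          mul_le_mul_of_nonneg_left hA1 (by positivity)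
        linarith
      have h7 : (1 : ℝ) ≤ w * ℓ := one_le_mul_of_one_le_of_one_le hwR hℓ1
      linarith
    have hZ : ((2 ^ (J + 1) * (22 * (J + 1) * η) * (J + 1) + s : ℕ) : ℝ) ≤ 1585 * s * ℓ ^ 2 := by
      push_cast
      have h5 : (2 : ℝ) ^ J * η ≤ 4 * s := by
        have h6 : (2 : ℝ) ^ J * η ≤ 2 ^ J * (4 * w) := mul_le_mul_of_nonneg_left hηR2 hPR.le
        linarith
      have h6 : ((J : ℝ) + 1) ≤ 3 * ℓ := by linarith
      have h7 : ((J : ℝ) + 1) ^ 2 ≤ (3 * ℓ) ^ 2 :=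
        pow_le_pow_left₀ (by positivity) h6 2
      have h8 : (2 : ℝ) ^ (J + 1) * (22 * ((J : ℝ) + 1) * η) * ((J : ℝ) + 1) =
          44 * (2 ^ J * η) * ((J : ℝ) + 1) ^ 2 := by
        rw [pow_succ]
        ring
      have h9 : 44 * ((2 : ℝ) ^ J * η) * ((J : ℝ) + 1) ^ 2 ≤ 44 * (4 * s) * (3 * ℓ) ^ 2 :=
        mul_le_mul (by linarith) h7 (by positivity) (by positivity)
      have h10 : (1 : ℝ) ≤ ℓ ^ 2 := one_le_pow₀ hℓ1
      have h11 : (s : ℝ) * 1 ≤ s * ℓ ^ 2 := mul_le_mul_of_nonneg_left h10 (by linarith)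
      rw [h8]
      linarith
    have hfin : ((⌊Y⌋₊ / 2 ^ J + 2 : ℕ) : ℝ) *
        ((2 ^ (J + 1) * (22 * (J + 1) * η) * (J + 1) + s : ℕ) : ℝ) ≤
        (26 * w * ℓ) * (1585 * s * ℓ ^ 2) :=
      mul_le_mul hX hZ (Nat.cast_nonneg _) (by positivity)
    rw [← hℓ, Nat.cast_mul]
    refine hfin.trans (le_of_eq ?_)
    push_cast
    ring

end Pool.Agent.T9h69.RE
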